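import Mathlib

namespace Pool.Agent.Results.MP_662923_co.Counter
open Finset SimpleGraph

/-- the poset C'(G) of connected spanning subgraphs of G, ordered by inclusion of edge sets. -/
def Csub {V : Type} (G : SimpleGraph V) : Set (SimpleGraph V) := {H | H ≤ G ∧ H.Connected}

/-- the k-th level of C'(G). -/
def level {V : Type} (G : SimpleGraph V) (k : ℕ) : Set (SimpleGraph V) :=
  {H | H ∈ Csub G ∧ H.edgeSet.ncard = k}

def a : Fin 10 → Fin 5 := ![0, 0, 1, 3, 3, 1, 2, 0, 3, 2]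
def b : Fin 10 → Fin 5 := ![1, 2, 3, 4, 4, 3, 4, 2, 4, 4]
def w : Fin 10 → ℕ := ![1, 4, 3, 4, 2, 4, 1, 4, 2, 2]

lemma w_le : ∀ i, 1 ≤ w i ∧ w i ≤ 4 := by decide

abbrev V : Type := Fin 5 ⊕ {x : Fin 10 × Fin 4 // 1 ≤ x.2.val ∧ x.2.val < w x.1}

def p (i : Fin 10) (t : ℕ) : V :=
  if h0 : t = 0 then .inl (a i) else if h : t < w i then
    .inr ⟨(i, ⟨t, h.trans_le (w_le i).2⟩), Nat.pos_of_ne_zero h0, h⟩ else .inl (b i)

def Ed : Finset (Fin 10 × ℕ) := (univ ×ˢ range 5).filter fun x => 1 ≤ x.2 ∧ x.2 ≤ w x.1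

lemma mem_Ed {x : Fin 10 × ℕ} : x ∈ Ed ↔ 1 ≤ x.2 ∧ x.2 ≤ w x.1 := by
  have := (w_le x.1).2
  simp [Ed]; omega

def ed (x : Fin 10 × ℕ) : Sym2 V := s(p x.1 (x.2 - 1), p x.1 x.2)

lemma ed_inj : ∀ x ∈ Ed, ∀ y ∈ Ed, ed x = ed y → x = y := by decide +kernel

lemma ed_nd : ∀ x ∈ Ed, p x.1 (x.2 - 1) ≠ p x.1 x.2 := by decide +kernel

def Φ (f : Fin 10 → ℕ) : SimpleGraph V :=
  fromEdgeSet ((Ed.filter fun x => x.2 ≠ f x.1).image ed : Finset _)

lemma Φe (f : Fin 10 → ℕ) :
    (Φ f).edgeSet = ((Ed.filter fun x => x.2 ≠ f x.1).image ed : Finset _) := by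
  rw [Φ, edgeSet_fromEdgeSet, sdiff_eq_left, Set.disjoint_left]
  intro e he hd
  obtain ⟨x, hx, rfl⟩ := mem_image.mp (mem_coe.mp he)
  exact ed_nd x (mem_filter.mp hx).1 (by simpa [ed] using hd)

lemma memΦ {f : Fin 10 → ℕ} {x} (hx : x ∈ Ed) : ed x ∈ (Φ f).edgeSet ↔ x.2 ≠ f x.1 := by
  rw [Φe, mem_coe, mem_image]
  refine ⟨?_, fun h => ⟨x, mem_filter.mpr ⟨hx, h⟩, rfl⟩⟩
  rintro ⟨y, hy, e⟩
  exact ed_inj y (mem_filter.mp hy).1 x hx e ▸ (mem_filter.mp hy).2

lemma src {f : Fin 10 → ℕ} {H : SimpleGraph V} (h : H ≤ Φ f) {e} (he : e ∈ H.edgeSet) :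
    ∃ x ∈ Ed, ed x = e := by
  have := edgeSet_mono h he
  rw [Φe] at this
  obtain ⟨x, hx, e⟩ := mem_image.mp (mem_coe.mp this)
  exact ⟨x, (mem_filter.mp hx).1, e⟩

lemma Φle (f : Fin 10 → ℕ) : Φ f ≤ Φ 0 := by
  rw [← edgeSet_subset_edgeSet]
  intro e he
  obtain ⟨x, hx, rfl⟩ := src le_rfl he
  have := mem_Ed.mp hx
  exact (memΦ hx).mpr (by simp; omega)

lemma cut {H : SimpleGraph V} (h : H ≤ Φ 0) (hc : H.Connected) (S : V → Bool)
    (hS : ∀ x ∈ Ed, ed x ∈ H.edgeSet → S (p x.1 (x.2 - 1)) = S (p x.1 x.2)) (u v : V) :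
    S u = S v := by
  obtain ⟨q⟩ := hc u v
  induction q with
  | nil => rfl
  | @cons u v _ e _ ih =>
    refine Eq.trans ?_ ih
    obtain ⟨x, hx, e'⟩ := src h (show s(u, v) ∈ H.edgeSet from e)
    have := hS x hx (e' ▸ e)
    rcases Sym2.eq_iff.mp e' with ⟨rfl, rfl⟩ | ⟨rfl, rfl⟩
    exacts [this, this.symm]

def seg (x y : Fin 10 × ℕ) : V → Bool
  | .inl _ => false
  | .inr z => z.1.1 == x.1 && decide (x.2 ≤ z.1.2.val) && decide (z.1.2.val < y.2)

lemma seg1 : ∀ x ∈ Ed, ∀ y ∈ Ed, x.1 = y.1 ∧ x.2 < y.2 → seg x y (p x.1 x.2) = true ∧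
    ∀ z ∈ Ed, z ≠ x ∧ z ≠ y → seg x y (p z.1 (z.2 - 1)) = seg x y (p z.1 z.2) := by
  decide +kernel

def Cfg : Finset (Fin 10 → ℕ) := Fintype.piFinset fun i => range (w i + 1)

lemma mem_Cfg {f} : f ∈ Cfg ↔ ∀ i, f i ≤ w i := by simp [Cfg]

lemma onto {H : SimpleGraph V} (h : H ≤ Φ 0) (hc : H.Connected) : ∃ f ∈ Cfg, H = Φ f := by
  have u1 : ∀ x ∈ Ed, ∀ y ∈ Ed, x.1 = y.1 → ed x ∉ H.edgeSet → ed y ∉ H.edgeSet → ¬ x.2 < y.2 := by
    intro x hx y hy e h1 h2 l
    obtain ⟨s1, s2⟩ := seg1 x hx y hy ⟨e, l⟩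
    have := cut h hc (seg x y) (fun z hz m => s2 z hz ⟨fun c => h1 (c ▸ m), fun c => h2 (c ▸ m)⟩)
      (p x.1 x.2) (.inl 0)
    rw [s1] at this
    exact absurd this (by simp [seg])
  have : ∀ i, ∃ j ≤ w i, ∀ t, (i, t) ∈ Ed → (ed (i, t) ∈ H.edgeSet ↔ t ≠ j) := by
    intro i
    by_cases e : ∃ j, (i, j) ∈ Ed ∧ ed (i, j) ∉ H.edgeSet
    · obtain ⟨j, h1, h2⟩ := e
      refine ⟨j, (mem_Ed.mp h1).2, fun t ht => ⟨fun m c => h2 (c ▸ m), fun c => ?_⟩⟩
      by_contra m
      have k1 := u1 _ h1 _ ht rfl h2 m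
      have k2 := u1 _ ht _ h1 rfl m h2
      simp at k1 k2
      omega
    · refine ⟨0, by simp, fun t ht => ⟨fun _ => ?_, fun _ => ?_⟩⟩
      · have := (mem_Ed.mp ht).1
        simp at this
        omega
      · by_contra m
        exact e ⟨t, ht, m⟩
  choose f f1 f2 using this
  refine ⟨f, mem_Cfg.mpr f1, edgeSet_injective (Set.Subset.antisymm ?_ ?_)⟩ <;> intro e he
  · obtain ⟨x, hx, rfl⟩ := src h he
    exact (memΦ hx).mpr ((f2 x.1 x.2 hx).mp he)
  · obtain ⟨x, hx, rfl⟩ := src le_rfl he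
    exact (f2 x.1 x.2 hx).mpr ((memΦ hx).mp he)

def supp (f : Fin 10 → ℕ) : Finset (Fin 10) := univ.filter fun i => f i ≠ 0

def good (P : Finset (Fin 10)) : Prop :=
  ∀ T : Fin 5 → Bool, (∀ i, i ∉ P → T (a i) = T (b i)) → ∀ u, T u = T 0

lemma bits : ∀ T : Fin 5 → Bool, ∃ n < 32, T = fun u : Fin 5 => Nat.testBit n u := by
  decide +kernel

instance : DecidablePred good := fun P => decidable_of_iff (∀ n < 32,
    (∀ i, n.testBit (a i) ≠ n.testBit (b i) → i ∈ P) → n = 0 ∨ n = 31) (by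
  constructor
  · intro h T hT u
    obtain ⟨n, hn, rfl⟩ := bits T
    rcases h n hn (fun i => not_imp_comm.mp (hT i)) with rfl | rfl <;> revert u <;> decide
  · intro h n hn hT
    have := h (fun u => n.testBit u) (fun i => not_imp_comm.mp (hT i))
    clear hT
    revert n
    decide)

lemma p0 (i : Fin 10) : p i 0 = .inl (a i) := by simp [p]

lemma pw (i : Fin 10) : p i (w i) = .inl (b i) := by
  have := (w_le i).1
  rw [p, dif_neg (by omega), dif_neg (by omega)]

lemma conn_iff {f} (hf : f ∈ Cfg) : (Φ f).Connected ↔ good (supp f) := by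
  rw [mem_Cfg] at hf
  constructor
  · intro hc T hT u
    let S : V → Bool := Sum.elim T fun z => if z.1.2.val < f z.1.1 then T (a z.1.1) else T (b z.1.1)
    have k : ∀ i t, t ≤ w i → S (p i t) = if t < f i then T (a i) else T (b i) := by
      intro i t ht
      have := hf i
      unfold p
      split_ifs with h1 h2 h3 h4 h5 <;> simp [S, *]
      · exact hT i (by simp [supp]; omega)
      · omega
    refine cut (Φle f) hc S (fun x hx m => ?_) (.inl u) (.inl 0)
    have := (memΦ hx).mp m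
    have := mem_Ed.mp hx
    rw [k _ _ (by omega), k _ _ (by omega)]
    simp only [show x.2 - 1 < f x.1 ↔ x.2 < f x.1 by omega]
  · intro hg
    have st : ∀ i s t, s ≤ t → t ≤ w i → (f i ≤ s ∨ t < f i) → (Φ f).Reachable (p i s) (p i t) := by
      intro i s t h
      induction t, h using Nat.le_induction with
      | base => intros; rfl
      | succ t h ih =>
        intro h1 h2
        refine (ih (by omega) (by omega)).trans (Adj.reachable ?_)
        exact (memΦ (x := (i, t + 1)) (mem_Ed.mpr ⟨by simp, h1⟩)).mpr (by simp; omega)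
    have base : ∀ u, (Φ f).Reachable (.inl 0) (.inl u) := by
      classical
      intro u
      have := hg (fun u => decide ((Φ f).Reachable (.inl 0) (.inl u))) (fun i hi => ?_) u
      · simpa using this
      · have r := st i 0 (w i) (by simp) le_rfl (Or.inl (by simpa [supp] using hi))
        rw [p0, pw] at r
        exact decide_eq_decide.mpr ⟨fun h => h.trans r, fun h => h.trans r.symm⟩
    have all : ∀ v, (Φ f).Reachable (.inl 0) v := by
      rintro (u | ⟨⟨i, t⟩, h1, h2⟩)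
      · exact base u
      · have e : p i t = .inr ⟨(i, t), h1, h2⟩ := by
          rw [p, dif_neg (by simp at h1 ⊢; omega), dif_pos h2]
        rw [← e]
        by_cases c : t.val < f i
        · exact (base _).trans (p0 i ▸ st i 0 t (by simp) h2.le (Or.inr c))
        · exact (base _).trans (pw i ▸ (st i t (w i) h2.le le_rfl (Or.inl (by omega))).symm)
    exact ⟨fun u v => (all u).symm.trans (all v)⟩

lemma Φinj : Set.InjOn Φ Cfg := by
  intro f hf g hg e
  have k : ∀ f ∈ Cfg, ∀ g, Φ f = Φ g → ∀ i, f i ≠ 0 → f i = g i := by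
    intro f hf g e i h
    have m : (i, f i) ∈ Ed := mem_Ed.mpr ⟨Nat.pos_of_ne_zero h, mem_Cfg.mp hf i⟩
    by_contra c
    exact (memΦ m).mp (e ▸ (memΦ m).mpr c) rfl
  funext i
  by_contra c
  have h1 := k f hf g e i
  have h2 := k g hg f e.symm i
  omega

lemma Φcard {f} (hf : f ∈ Cfg) : (Φ f).edgeSet.ncard + (supp f).card = 27 := by
  rw [Φe, Set.ncard_coe_finset, card_image_of_injOn (fun x hx y hy =>
    ed_inj x (mem_filter.mp hx).1 y (mem_filter.mp hy).1), show 27 = Ed.card by decide +kernel,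
    ← card_filter_add_card_filter_not (s := Ed) (fun x => x.2 ≠ f x.1)]
  congr 1
  refine card_bij (fun i _ => (i, f i)) (fun i hi => ?_) (fun i _ j _ e => congrArg Prod.fst e) ?_
  · simp only [supp, mem_filter] at hi
    exact mem_filter.mpr ⟨mem_Ed.mpr ⟨Nat.pos_of_ne_zero hi.2, mem_Cfg.mp hf i⟩, by simp⟩
  · intro x hx
    obtain ⟨h1, h2⟩ := mem_filter.mp hx
    have := mem_Ed.mp h1
    exact ⟨x.1, by simp [supp]; omega, Prod.ext rfl (by simp; omega)⟩

lemma count (Q : Finset (Fin 10) → Prop) [DecidablePred Q] :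
    (Cfg.filter fun f => Q (supp f)).card = ∑ P ∈ univ.filter Q, ∏ i ∈ P, w i := by
  rw [card_eq_sum_card_fiberwise (f := supp) (t := univ.filter Q) (fun f hf => by simp_all)]
  refine sum_congr rfl fun P hP => ?_
  have : ((Cfg.filter fun f => Q (supp f)).filter fun f => supp f = P) =
      Fintype.piFinset fun i => if i ∈ P then Icc 1 (w i) else {0} := by
    ext f
    simp only [mem_filter, mem_Cfg, Fintype.mem_piFinset]
    constructor
    · rintro ⟨⟨h1, -⟩, rfl⟩ i
      have := h1 i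
      split_ifs with h <;> simp [supp] at h ⊢ <;> omega
    · intro h
      have e : supp f = P := by
        ext i
        have := h i
        split_ifs at this with c <;> simp [supp, c] at this ⊢ <;> omega
      refine ⟨⟨fun i => ?_, e ▸ (mem_filter.mp hP).2⟩, e⟩
      have := h i
      split_ifs at this with c <;> simp at this <;> omega
  rw [this, Fintype.card_piFinset]
  simp [apply_ite card, prod_ite_mem]

lemma ncount (Q : Finset (Fin 10) → Prop) [DecidablePred Q] (A : Set (SimpleGraph V))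
    (hA : A ⊆ Csub (Φ 0)) (h : ∀ f ∈ Cfg, Φ f ∈ A ↔ Q (supp f)) :
    A.ncard = ∑ P ∈ univ.filter Q, ∏ i ∈ P, w i := by
  rw [← count, ← Set.ncard_coe_finset, ← Set.InjOn.ncard_image
    (Φinj.mono (coe_subset.mpr (filter_subset _ _)))]
  congr 1
  ext H
  constructor
  · intro m
    obtain ⟨f, hf, rfl⟩ := onto (hA m).1 (hA m).2
    exact ⟨f, mem_coe.mpr (mem_filter.mpr ⟨hf, (h f hf).mp m⟩), rfl⟩
  · rintro ⟨f, hf, rfl⟩
    exact (h f (mem_filter.mp hf).1).mpr (mem_filter.mp hf).2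

lemma c0 : ∑ P ∈ (univ.filter good).filter (fun P => P.card = if 0 ∈ P then 5 else 6),
    ∏ i ∈ P, w i = 20772 ∧ ∀ j < 11, ∑ P ∈ (univ.filter good).filter (fun P => P.card = j),
    ∏ i ∈ P, w i < 20772 := by decide +kernel

lemma c1 : ∑ P ∈ univ.filter (fun P => good P ∧ P.card = if 0 ∈ P then 5 else 6),
    ∏ i ∈ P, w i = 20772 := by rw [← c0.1, filter_filter]

theorem result : ∃ (V : Type) (_ : Finite V) (G : SimpleGraph V), G.Connected ∧
    ∃ A ⊆ Csub G, IsAntichain (· ≤ ·) A ∧ ∀ k, (level G k).ncard < A.ncard := by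
  classical
  have e0 : ((0 : Fin 10), 1) ∈ Ed := by decide
  refine ⟨V, inferInstance, Φ 0, (conn_iff (mem_Cfg.mpr fun _ => by simp)).mpr (by decide +kernel),
    {H | H ∈ Csub (Φ 0) ∧ H.edgeSet.ncard = if ed (0, 1) ∈ H.edgeSet then 21 else 22},
    fun H h => h.1, ?_, fun k => ?_⟩
  · intro H h K k ne le
    have := Set.ncard_lt_ncard (edgeSet_ssubset_edgeSet.mpr (lt_of_le_of_ne le ne)) (Set.toFinite _)
    rw [h.2, k.2] at this
    by_cases c : ed (0, 1) ∈ H.edgeSet
    · simp [c, edgeSet_mono le c] at this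
    · rw [if_neg c] at this
      split_ifs at this <;> omega
  · rw [ncount (fun P => good P ∧ k + P.card = 27) (level _ k) (fun H h => h.1),
      ncount (fun P => good P ∧ P.card = if 0 ∈ P then 5 else 6) _ (fun H h => h.1), c1]
    · by_cases c : 17 ≤ k ∧ k ≤ 27
      · refine lt_of_eq_of_lt ?_ (c0.2 (27 - k) (by omega))
        rw [filter_filter]
        exact sum_congr (filter_congr fun P _ => and_congr_right fun _ => by omega) fun _ _ => rfl
      · rw [filter_eq_empty_iff.mpr, sum_empty]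
        · simp
        · intro P _ h
          have := card_le_univ P
          simp at this
          omega
    · intro f hf
      have := Φcard hf
      have h1 : f 0 ≤ 1 := mem_Cfg.mp hf 0
      have h2 : 0 ∈ supp f ↔ f 0 ≠ 0 := by simp [supp]
      simp only [Csub, Set.mem_ofPred_eq, Φle, true_and, conn_iff hf, memΦ e0, h2]
      refine and_congr_right fun _ => ?_
      split_ifs <;> omega
    · intro f hf
      have := Φcard hf
      simp only [level, Csub, Set.mem_ofPred_eq, Φle, true_and, conn_iff hf]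
      exact and_congr_right fun _ => by omega

end Pool.Agent.Results.MP_662923_co.Counter
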